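import Mathlib

set_option autoImplicit false

/-!
# The prime-power threshold `g(k)` grows faster than every exponential

For all large `k` there is an integer `m > M ^ k` such that no `k`-th power of a prime (even of a
positive integer) below the Frobenius number `m (m + 1) - m - (m + 1)` of `m`, `m + 1` is of the
form `m x + (m + 1) y`.

Proof. Let `P = Q ^ 2` with `Q` even and large in terms of `M`, and `A = Q ^ k / 2`. For
`m ∈ [A, 2 A)` the Frobenius number is less than `P ^ k`, so only the bases `n < P` matter. If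
`n ^ k = m x + (m + 1) y`, then `m q ≤ n ^ k ≤ (m + 1) q` for `q = x + y`, which for given `n`, `q`
leaves at most two `m`, and `q ≤ (P - 1) ^ k / A`. So at most `2 P (P - 1) ^ k / A` of the `m` are
bad, and this is less than `A` for large `k` because `(1 - 1 / P) ^ k` tends to zero.
-/

namespace Pool.Agent.Results.MP_0e842d_nt.SuperExponential

/-- The pair `(a, b)` is `k`-good: some prime `p` satisfies `p ^ k ≤ a b - a - b` and
`p ^ k = a x + b y` for some nonnegative integers `x`, `y`. -/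
def Good (k a b : ℕ) : Prop :=
  ∃ p : ℕ, p.Prime ∧ ((p : ℤ) ^ k ≤ (a : ℤ) * b - a - b) ∧ ∃ x y : ℕ, p ^ k = a * x + b * y

/-- The positive integers `N` such that every coprime pair `(a, b)` with `1 < a < b` and `N < a` is
`k`-good. The number `g(k)` of the problem is the least element of this set. -/
def Thresholds (k : ℕ) : Set ℕ :=
  {N : ℕ | 0 < N ∧ ∀ a b : ℕ, 1 < a → N < a → a < b → a.Coprime b → Good k a b}

/-- for given `N`, `q` at most two `m` satisfy `m q ≤ N ≤ (m + 1) q` -/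
lemma card_le_two (S : Finset ℕ) (N q : ℕ) (hq : 1 ≤ q) :
    (S.filter (fun m => m * q ≤ N ∧ N ≤ (m + 1) * q)).card ≤ 2 := by
  have hsub : S.filter (fun m => m * q ≤ N ∧ N ≤ (m + 1) * q) ⊆ Finset.Icc (N / q - 1) (N / q) := by
    intro m hm
    rw [Finset.mem_filter] at hm
    obtain ⟨-, h1, h2⟩ := hm
    rw [Finset.mem_Icc]
    have h3 : m ≤ N / q := (Nat.le_div_iff_mul_le (by omega)).mpr h1
    have h4 : N / q ≤ m + 1 := by
      calc N / q ≤ ((m + 1) * q) / q := Nat.div_le_div_right h2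
        _ = m + 1 := Nat.mul_div_cancel _ (by omega)
    omega
  refine (Finset.card_le_card hsub).trans ?_
  rw [Nat.card_Icc]
  omega

/-- the counting argument -/
lemma exists_bad_pair (P A k : ℕ) (hA : 1 ≤ A)
    (h : 2 * P * (P - 1) ^ k < A * A) :
    ∃ m : ℕ, A ≤ m ∧ m < 2 * A ∧ ∀ n : ℕ, 1 ≤ n → n < P → ∀ x y : ℕ,
      n ^ k ≠ m * x + (m + 1) * y := by
  classical
  set T : ℕ := (P - 1) ^ k / A with hT
  set B : Finset ℕ := (Finset.range P).biUnion fun n => (Finset.Icc 1 T).biUnion fun q =>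
    (Finset.Ico A (2 * A)).filter (fun m => m * q ≤ n ^ k ∧ n ^ k ≤ (m + 1) * q) with hB
  have hcard : B.card ≤ P * (T * 2) := by
    refine (Finset.card_biUnion_le).trans ?_
    refine (Finset.sum_le_card_nsmul _ _ (T * 2) ?_).trans ?_
    · intro n _
      refine (Finset.card_biUnion_le).trans ?_
      refine (Finset.sum_le_card_nsmul _ _ 2 ?_).trans ?_
      · intro q hq
        rw [Finset.mem_Icc] at hq
        exact card_le_two _ _ _ hq.1
      · rw [Nat.card_Icc, smul_eq_mul]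
        simp
    · rw [Finset.card_range, smul_eq_mul]
  have hlt : P * (T * 2) < A := by
    have h1 : T * A ≤ (P - 1) ^ k := Nat.div_mul_le_self _ _
    have h2 : P * (T * 2) * A < A * A := by
      calc P * (T * 2) * A = 2 * P * (T * A) := by ring
        _ ≤ 2 * P * (P - 1) ^ k := Nat.mul_le_mul_left _ h1
        _ < A * A := h
    exact lt_of_mul_lt_mul_right h2 (Nat.zero_le _)
  have hIco : (Finset.Ico A (2 * A)).card = A := by
    rw [Nat.card_Ico]
    omega
  obtain ⟨m, hm, hmB⟩ : ∃ m ∈ Finset.Ico A (2 * A), m ∉ B :=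
    Finset.exists_mem_notMem_of_card_lt_card (by omega)
  rw [Finset.mem_Ico] at hm
  refine ⟨m, hm.1, hm.2, fun n hn1 hnP x y hxy => hmB ?_⟩
  have hm0 : 0 < m := by omega
  have hpos : 0 < n ^ k := Nat.pow_pos (by omega)
  have hq0 : 1 ≤ x + y := by
    by_contra h0
    have hx : x = 0 := by omega
    have hy : y = 0 := by omega
    subst hx; subst hy
    simp at hxy
    omega
  have e1 : m * (x + y) ≤ n ^ k := by rw [hxy]; nlinarith
  have e2 : n ^ k ≤ (m + 1) * (x + y) := by rw [hxy]; nlinarith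
  have hqT : x + y ≤ T := by
    rw [hT, Nat.le_div_iff_mul_le (by omega)]
    calc (x + y) * A ≤ (x + y) * m := Nat.mul_le_mul_left _ hm.1
      _ = m * (x + y) := Nat.mul_comm _ _
      _ ≤ n ^ k := e1
      _ ≤ (P - 1) ^ k := Nat.pow_le_pow_left (by omega) _
  rw [hB, Finset.mem_biUnion]
  refine ⟨n, Finset.mem_range.mpr hnP, ?_⟩
  rw [Finset.mem_biUnion]
  refine ⟨x + y, Finset.mem_Icc.mpr ⟨hq0, hqT⟩, ?_⟩
  rw [Finset.mem_filter, Finset.mem_Ico]
  exact ⟨hm, e1, e2⟩

/-- `8 P (P - 1) ^ k < P ^ k` for large `k` -/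
lemma eventually_pow (P : ℕ) (hP : 2 ≤ P) :
    ∃ k₀ : ℕ, ∀ k : ℕ, k₀ ≤ k → 8 * P * (P - 1) ^ k < P ^ k := by
  have hP0 : (0 : ℝ) < P := by
    have : 0 < P := by omega
    exact_mod_cast this
  have hr0 : (0 : ℝ) ≤ ((P : ℝ) - 1) / P := by
    apply div_nonneg _ hP0.le
    have : (2 : ℝ) ≤ P := by exact_mod_cast hP
    linarith
  have hr1 : ((P : ℝ) - 1) / P < 1 := by
    rw [div_lt_one hP0]
    linarith
  have ht := tendsto_pow_atTop_nhds_zero_of_lt_one hr0 hr1
  have hev := ht.eventually (gt_mem_nhds (show (0 : ℝ) < 1 / (8 * P) by positivity))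
  obtain ⟨k₀, hk₀⟩ := Filter.eventually_atTop.mp hev
  refine ⟨k₀, fun k hk => ?_⟩
  have h1 := hk₀ k hk
  rw [div_pow, div_lt_div_iff₀ (by positivity) (by positivity)] at h1
  have h2 : (8 * (P : ℝ)) * ((P : ℝ) - 1) ^ k < (P : ℝ) ^ k := by linarith
  have h3 : ((P - 1 : ℕ) : ℝ) = (P : ℝ) - 1 := by
    rw [Nat.cast_sub (by omega)]
    simp
  have h4 : ((8 * P * (P - 1) ^ k : ℕ) : ℝ) < ((P ^ k : ℕ) : ℝ) := by
    push_cast
    rw [h3]
    exact h2
  exact_mod_cast h4

/-- **Theorem.** For every real `M > 0` there is `k₀` such that for all `k ≥ k₀` every threshold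
`N`, in particular the least one `g(k)`, is greater than `M ^ k`. -/
theorem result : ∀ M : ℝ, 0 < M → ∃ k₀ : ℕ, ∀ k : ℕ, k₀ ≤ k →
    ∀ N ∈ Thresholds k, M ^ k < (N : ℝ) := by
  intro M hM
  obtain ⟨R, hR⟩ := exists_nat_ge (M + 2)
  have hR2 : 2 ≤ R := by
    have : (2 : ℝ) ≤ R := by linarith
    exact_mod_cast this
  set Q : ℕ := 2 * R with hQ
  set P : ℕ := Q ^ 2 with hPdef
  have hP2 : 2 ≤ P := by
    rw [hPdef, hQ]
    nlinarith
  obtain ⟨k₀, hk₀⟩ := eventually_pow P hP2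
  refine ⟨k₀ + 1, fun k hk N hN => ?_⟩
  obtain ⟨hN0, hN⟩ := hN
  obtain ⟨j, rfl⟩ : ∃ j, k = j + 1 := ⟨k - 1, by omega⟩
  have h8 := hk₀ (j + 1) (by omega)
  set A : ℕ := R * Q ^ j with hAdef
  have hQ0 : 1 ≤ Q := by omega
  have hA2 : 2 * A = Q ^ (j + 1) := by
    rw [hAdef, pow_succ, hQ]
    ring
  have hA1 : R ≤ A := by
    rw [hAdef]
    exact Nat.le_mul_of_pos_right _ (Nat.pow_pos (by omega))
  have hPk : P ^ (j + 1) = 4 * (A * A) := by
    calc P ^ (j + 1) = (Q ^ (j + 1)) ^ 2 := by rw [hPdef, ← pow_mul, ← pow_mul, Nat.mul_comm]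
      _ = (2 * A) ^ 2 := by rw [hA2]
      _ = 4 * (A * A) := by ring
  obtain ⟨m, hm1, hm2, hm⟩ := exists_bad_pair P A (j + 1) (by omega) (by
    rw [hPk] at h8
    nlinarith)
  -- `(m, m + 1)` is not good
  have hbad : ¬ Good (j + 1) m (m + 1) := by
    rintro ⟨p, hp, hle, x, y, hxy⟩
    refine hm p hp.one_lt.le ?_ x y hxy
    by_contra hge
    push Not at hge
    have h1 : P ^ (j + 1) ≤ p ^ (j + 1) := Nat.pow_le_pow_left hge _
    have h2 : ((P ^ (j + 1) : ℕ) : ℤ) ≤ (p : ℤ) ^ (j + 1) := by exact_mod_cast h1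
    rw [hPk] at h2
    push_cast at h2 hle
    have h3 : (m : ℤ) < 2 * A := by exact_mod_cast hm2
    have h4 : (0 : ℤ) ≤ m := Int.natCast_nonneg m
    nlinarith
  have hNm : m ≤ N := by
    by_contra hlt
    push Not at hlt
    exact hbad (hN m (m + 1) (by omega) hlt (Nat.lt_succ_self m) (by simp))
  -- `M ^ k < A ≤ m ≤ N`
  have hMR : M + 2 ≤ (R : ℝ) := hR
  have h5 : M ^ (j + 1) < (A : ℝ) := by
    rw [hAdef, pow_succ]
    push_cast
    rw [hQ]
    push_cast
    have h6 : M ^ j ≤ (2 * (R : ℝ)) ^ j := pow_le_pow_left₀ hM.le (by linarith) _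
    have h7 : (0 : ℝ) < (2 * (R : ℝ)) ^ j := by
      have : (0 : ℝ) < R := by linarith
      positivity
    nlinarith
  calc M ^ (j + 1) < (A : ℝ) := h5
    _ ≤ (m : ℝ) := by exact_mod_cast hm1
    _ ≤ (N : ℝ) := by exact_mod_cast hNm

end Pool.Agent.Results.MP_0e842d_nt.SuperExponential
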